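import Pool.Agent.helper76.UF.SpecB

set_option autoImplicit false

namespace Pool.Agent.UF

open Finset Polynomial NumberField nonZeroDivisors

theorem CMP_geo {R : Type} [CommRing R] (a y : R) (N : ℕ) :
    ∃ h : R, (∑ i ∈ range N, a ^ i * y ^ (N - 1 - i)) = (N : R) * a ^ (N - 1) + (a - y) * h := by
  have h1 : (a - y) ∣ (∑ i ∈ range N, a ^ i * y ^ (N - 1 - i)) - (N : R) * a ^ (N - 1) := by
    have h2 : (N : R) * a ^ (N - 1) = ∑ i ∈ range N, a ^ i * a ^ (N - 1 - i) := by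
      have h3 : ∀ i ∈ range N, a ^ i * a ^ (N - 1 - i) = a ^ (N - 1) := by
        intro i hi
        rw [← pow_add]
        congr 1
        have := mem_range.mp hi
        omega
      rw [Finset.sum_congr rfl h3, sum_const, card_range, nsmul_eq_mul]
    rw [h2, ← Finset.sum_sub_distrib]
    refine Finset.dvd_sum ?_
    intro i _
    rw [← mul_sub]
    refine Dvd.dvd.mul_left ?_ _
    have h4 : (a - y) ∣ a ^ (N - 1 - i) - y ^ (N - 1 - i) := sub_dvd_pow_sub_pow a y _
    have h5 : y ^ (N - 1 - i) - a ^ (N - 1 - i) = -(a ^ (N - 1 - i) - y ^ (N - 1 - i)) := by ring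
    rw [h5]
    exact (dvd_neg).mpr h4
  obtain ⟨h, hh⟩ := h1
  exact ⟨h, by rw [← hh]; ring⟩

theorem CMP : CMP_stmt := by
  intro m c R _ x hx t ht D D' hDD
  have hyN : (x ^ t) ^ (2 ^ m) = -1 := by
    rw [← pow_mul, mul_comm t (2 ^ m), pow_mul, hx, ht.neg_one_pow]
  obtain ⟨h, hh⟩ := CMP_geo (((2 ^ (2 ^ c) : ℕ) : R)) (x ^ t) (2 ^ m)
  have hg := (Commute.all (((2 ^ (2 ^ c) : ℕ) : R)) (x ^ t)).mul_geom_sum₂ (2 ^ m)
  rw [hyN] at hg
  have hF : (D : R) * (D' : R) = (((2 ^ (2 ^ c) : ℕ) : R)) ^ (2 ^ m) - (-1) := by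
    have := congrArg (Nat.cast : ℕ → R) hDD
    push_cast at this ⊢
    rw [this]
    ring
  -- coprimality
  have hcop : Nat.Coprime (2 ^ m * (2 ^ (2 ^ c)) ^ (2 ^ m - 1)) D := by
    have hodd : Odd D := by
      have h1 : Odd (D * D') := by
        rw [hDD]
        refine Even.add_one ?_
        refine Even.pow_of_ne_zero ?_ (by positivity)
        exact Even.pow_of_ne_zero even_two (by positivity)
      exact (Nat.odd_mul.mp h1).1
    have h2 : Nat.Coprime 2 D := by
      rw [Nat.coprime_two_left]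
      exact hodd
    refine Nat.Coprime.mul_left ?_ ?_
    · exact Nat.Coprime.pow_left _ h2
    · exact Nat.Coprime.pow_left _ (Nat.Coprime.pow_left _ h2)
  have hco := Nat.isCoprime_iff_coprime.mpr hcop
  obtain ⟨u, v, huv⟩ := hco
  have huvR := congrArg (Int.cast : ℤ → R) huv
  push_cast at huvR hg hh hF
  unfold ff
  push_cast
  rw [Ideal.span_pair_mul_span_pair]
  apply le_antisymm
  · rw [Ideal.span_le]
    intro e he
    simp only [Set.mem_insert_iff, Set.mem_singleton_iff] at he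
    rw [SetLike.mem_coe, Ideal.mem_span_singleton]
    rcases he with he | he | he | he
    · rw [he, hF, ← hg]
      exact Dvd.intro _ rfl
    · rw [he]; exact Dvd.intro_left _ rfl
    · rw [he]; exact Dvd.intro _ rfl
    · rw [he]; exact Dvd.intro _ rfl
  · rw [Ideal.span_singleton_le_iff_mem]
    set S : Set R := {(D : R) * (D' : R), (D : R) * ((2 : R) ^ 2 ^ c - x ^ t),
      ((2 : R) ^ 2 ^ c - x ^ t) * (D' : R), ((2 : R) ^ 2 ^ c - x ^ t) * ((2 : R) ^ 2 ^ c - x ^ t)} with hS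
    have m1 : (D : R) * (D' : R) ∈ Ideal.span S := Ideal.subset_span (by simp [hS])
    have m2 : (D : R) * ((2 : R) ^ 2 ^ c - x ^ t) ∈ Ideal.span S := Ideal.subset_span (by simp [hS])
    have m3 : ((2 : R) ^ 2 ^ c - x ^ t) * ((2 : R) ^ 2 ^ c - x ^ t) ∈ Ideal.span S :=
      Ideal.subset_span (by simp [hS])
    have key : ((2 : R) ^ 2 ^ c - x ^ t) = (u : R) * ((D : R) * (D' : R))
        + (-(u : R) * h) * (((2 : R) ^ 2 ^ c - x ^ t) * ((2 : R) ^ 2 ^ c - x ^ t))
        + (v : R) * ((D : R) * ((2 : R) ^ 2 ^ c - x ^ t)) := by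
      rw [hF, ← hg, hh]
      linear_combination (-((2 : R) ^ 2 ^ c - x ^ t)) * huvR
    rw [key]
    exact Ideal.add_mem _ (Ideal.add_mem _ (Ideal.mul_mem_left _ _ m1) (Ideal.mul_mem_left _ _ m3))
      (Ideal.mul_mem_left _ _ m2)

end Pool.Agent.UF
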